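import Pool.Agent.Run7.h294.H4

set_option autoImplicit false

/-!
# Large prime-free intervals at prescribed shifts of almost all integers

For all `A` and `K` there are `c, C > 0` such that, for all large `X`, all real `μ` with `0 ≤ μ ≤ c log log X` and EVERY
set `S` of at least `exp ((e ^ μ log log X) ^ C)` integers of `[0, X ^ K]`, all but at most `X / (log X) ^ A` of the
integers `n ≤ X` have the following property: for some `s` in `S` there is no prime within `μ log X` of `n + s`.

Since `A` is arbitrary, the same holds for almost all primes `n`: for almost all primes `q ≤ X` there is for example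
a prime `r ≤ exp ((log log X) ^ C)` such that the two primes around `q + r` have distance at least `μ log X`
(take for `S` the primes up to `exp ((log log X) ^ C)`).

Method. The second moment method of `MP_f9960f_nt.UniformGapTail` (truncated square weights of the record sieve of
the starting library, `Pool.Agent.H256R2.SC`) with a variable exponent: sieving primes above `(log X) ^ D`, windows
`n + s + (0, λ]` at an arbitrary well separated set of shifts (the primes dividing a difference of two shifts are
few), and a bound for the exceptional set in every residue class modulo the product of the primes up to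
`(log X) ^ (1/10)`, summed over all classes.
-/

namespace Pool.Agent.Results.MP_f9960f_nt.PrescribedShifts

/-- **Prime-free intervals of length `2 μ log X` around `n + s`, `s` in a prescribed set, for almost all `n`.** -/
theorem result : ∀ A K : ℕ, ∃ c C : ℝ, 0 < c ∧ 0 < C ∧ ∃ X₀ : ℕ, ∀ X : ℕ, X₀ ≤ X →
    ∀ μ : ℝ, 0 ≤ μ → μ ≤ c * Real.log (Real.log X) →
    ∀ S : Finset ℕ, (∀ s ∈ S, (s : ℝ) ≤ (X : ℝ) ^ K) →
      Real.exp ((Real.exp μ * Real.log (Real.log X)) ^ C) ≤ (S.card : ℝ) →
      ({n : ℕ | n ≤ X ∧ ∀ s ∈ S, ∃ p : ℕ, p.Prime ∧
        |(p : ℝ) - ((n : ℝ) + s)| ≤ μ * Real.log X}.ncard : ℝ) ≤ X / (Real.log X) ^ A :=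
  Run7.h294.H.almost_all

end Pool.Agent.Results.MP_f9960f_nt.PrescribedShifts
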