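import Pool.Agent.Run7.h294.R5

set_option autoImplicit false

/-!
# How often the largest known gaps between primes occur

Let `f(X) = log X (log₂ X)² log₄ X / (log₃ X)²`, the size of the largest gaps known to occur up to `X` (starting
library, helper256 and team), and `g(X) = log X log₂ X log₄ X / log₃ X`, the size of the gaps of Ford, Green,
Konyagin, Maynard and Tao. For a small `c > 0`, all large `X` and ALL `H` with `log X log₂ X ≤ H ≤ c f(X)` at least
`X exp (-(log X) ^ (1 - c g(X) / H))` primes up to `X` are followed by a gap of length at least `H`.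

For `H = c f(X)` this is `X exp (-log X / log₂ X) = X ^ (1 - 1 / log log X)`, so gaps of the record size `c f(X)`,
with a fixed `c`, occur `X ^ (1 - o(1))` times; for `H = K log X log₂ X` it is
`X exp (-(log X) ^ (1 - (c / K) log₄ X / log₃ X))`.

Method. Residue classes modulo the primes up to `y = (log X) ^ (1 - κ)`, `κ` about `g(X) / H`, are chosen by the
method of Rankin (`Pool.Agent.H398R2.RK`, helper398, here with a variable ratio `H / y`) such that only `c log X`
points of the window of length `H` survive. The windows `n + i W + (0, H]` of a block have the same survivors.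
They are covered, for almost all `n`, by the truncated square weights and local averages of
`MP_f9960f_nt.UniformGapTail`; a positive proportion of the blocks of every class modulo `W` contains a prime.
-/

namespace Pool.Agent.Results.MP_f9960f_nt.RecordGapTail

/-- The record scale `f(x) = log x (log₂ x)² log₄ x / (log₃ x)²` (iterated natural logarithms). -/
noncomputable def f (x : ℝ) : ℝ :=
  Real.log x * (Real.log (Real.log x)) ^ 2 * Real.log (Real.log (Real.log (Real.log x))) /
    (Real.log (Real.log (Real.log x))) ^ 2

/-- `g(x) = log x log₂ x log₄ x / log₃ x`. -/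
noncomputable def g (x : ℝ) : ℝ :=
  Real.log x * Real.log (Real.log x) * Real.log (Real.log (Real.log (Real.log x))) /
    Real.log (Real.log (Real.log x))

/-- The prime with index `n` (`p 0 = 2`). -/
noncomputable def p (n : ℕ) : ℕ := Nat.nth Nat.Prime n

/-- **Frequency of the gaps up to the record scale.** -/
theorem result : ∃ c : ℝ, 0 < c ∧ ∃ X₀ : ℝ, ∀ X : ℝ, X₀ ≤ X →
    ∀ H : ℝ, Real.log X * Real.log (Real.log X) ≤ H → H ≤ c * f X →
      X * Real.exp (-(Real.log X ^ (1 - c * g X / H))) ≤
        ({n : ℕ | (p n : ℝ) ≤ X ∧ H ≤ (p (n + 1) : ℝ) - p n}.ncard : ℝ) := by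
  obtain ⟨c, hc, X₀, h⟩ := Run7.h294.R.record_tail
  refine ⟨c, hc, X₀, fun X hX H h1 h2 => ?_⟩
  have h3 := h X hX H h1 h2
  have e : c * g X / H = c * (Real.log X * Real.log (Real.log X) *
      Real.log (Real.log (Real.log (Real.log X))) /
        (H * Real.log (Real.log (Real.log X)))) := by
    unfold g
    rw [mul_div_assoc, div_div, mul_comm H]
  rw [e]
  exact h3

end Pool.Agent.Results.MP_f9960f_nt.RecordGapTail
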