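import Pool.Agent.Run7.h931.RL.Law

/-!
# Cramér's law for almost all shifts in prescribed residue classes: the small primes decide

In Cramér's random model as corrected by Granville, for a modulus `M` composed of the small primes, an integer coprime to `M`
is a prime with probability `(M / φ(M)) / log N`. For given residues `c 0, ..., c (m - 1)` modulo `M` the best place for a run of
composite numbers `n + s 0, ..., n + s (m - 1)`, with `s j ≡ c j`, is the residue class of `n` for which the fewest of
the `n + c j` are coprime to `M`; if `S` is this number, the model predicts that there is such an `n ≤ N` if and only if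
`S M / φ(M)` is below `log^2 N`. This is proved here for almost all shifts `s j ≡ c j`, for every sequence of
residues, together with the exponent of the number of the `n`, and the length of the longest run.

Method: second moments over the vectors of shifts, for `n` in the best residue class modulo `M` (see `MP_b0c12c_nt.RandomShifts`
for shifts without prescribed residues); prime pairs with the correct constant in residue classes and windows for almost all
differences, and with an upper bound sieve for the others.
-/

set_option autoImplicit false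

namespace Pool.Agent.Results.MP_f9960f_nt.SmallPrimesDecide

open Finset

/-- The integers `1 ≤ n ≤ N` for which no `n + s j`, `j < m`, is a prime. -/
def composite {m : ℕ} (N : ℕ) (s : Fin m → ℕ) : Finset ℕ := (Icc 1 N).filter fun n => ∀ j, ¬ (n + s j).Prime

open Classical in
/-- The largest `k ≤ m` for which there is an integer `1 ≤ n ≤ N` such that none of the `n + s j`, `0 ≤ j < k`, is a prime. -/
noncomputable def longest {m : ℕ} (N : ℕ) (s : Fin m → ℕ) : ℕ :=
  Nat.findGreatest (fun k => ∃ n, 1 ≤ n ∧ n ≤ N ∧ ∀ j : Fin m, (j : ℕ) < k → ¬ (n + s j).Prime) m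

/-- The vectors of shifts `s 0, ..., s (m - 1)`: `s j` is in the window `(b j, b j + q]` and `s j ≡ c j` modulo `M`. -/
def shifts (m M q : ℕ) (c b : ℕ → ℕ) : Finset (Fin m → ℕ) :=
  Fintype.piFinset fun j : Fin m => (Ioc (b j) (b j + q)).filter fun v => v ≡ c j [MOD M]

/-- What the prime divisors of `M` leave of `c 0, ..., c (k - 1)`: the least number, over all `n`, of `j < k` with `n + c j`
coprime to `M`. Equivalently (Chinese remainder theorem) the least number of `j < k` that remain when those with `c j` in
one residue class modulo `p` are removed, for every prime divisor `p` of `M`. -/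
noncomputable def rest (M : ℕ) (c : ℕ → ℕ) (k : ℕ) : ℕ :=
  sInf (Set.range fun n : ℕ => ((range k).filter fun j => (n + c j).Coprime M).card)

/-- The effective number `(M / φ(M)) * rest` of the residues `c 0, ..., c (k - 1)`. -/
noncomputable def size (M : ℕ) (c : ℕ → ℕ) (k : ℕ) : ℝ := (M : ℝ) / Nat.totient M * rest M c k

/-- For every `ε > 0` there is `w₀` such that the following holds for all `T`, `a`, for all `w ≥ w₀` and for every modulus `M`
whose prime divisors are exactly the primes up to `w`. For all large `N`, all `N / log^a N ≤ q ≤ N`, all `m`, all sequences of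
residues `c j` and all windows `(b j, b j + q]` with `b j ≤ T N`, and with `Λ k = size M c k` for the effective number
of the first `k` residues:

**(1)** If `Λ m ≥ (1 + ε) log^2 N`, then for all but a proportion of at most `N^(-ε/2)` of the vectors `s` of shifts in the
windows with `s j ≡ c j` modulo `M` there is no `n ≤ N` such that all `n + s 0, ..., n + s (m - 1)` are composite (not prime).

**(2)** If `Λ m ≤ (1 - ε) log^2 N`, then for all but a proportion of at most `ε` of these vectors the number of these `n ≤ N`
is between `N^(1 - Λ m/log^2 N - ε)` and `N^(1 - Λ m/log^2 N + ε)`.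

**(3)** If `Λ m ≥ (1 + ε) log^2 N`, then for all but a proportion of at most `ε` of these vectors the largest `k ≤ m` such
that all `n + s 0, ..., n + s (k - 1)` are composite for some `n ≤ N` satisfies `|Λ k - log^2 N| ≤ ε log^2 N`.

**(4)** If `c j = j` for all `j < m` (perturbed intervals `s j = j + M r j`) and `m ≥ (1 + ε) log^2 N`, then for all but a proportion
of at most `ε` of these vectors this `k` is between `(1 - ε) log^2 N` and `(1 + ε) log^2 N`. -/
theorem result (ε : ℝ) (hε : 0 < ε) : ∃ w₀ : ℕ, ∀ T a w : ℕ, w₀ ≤ w → ∀ M : ℕ, 1 ≤ M →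
    (∀ p : ℕ, p.Prime → (p ∣ M ↔ p ≤ w)) → ∃ N₀ : ℕ, ∀ N : ℕ, N₀ ≤ N → ∀ q : ℕ, (N : ℝ) ≤ q * Real.log N ^ a → q ≤ N →
    ∀ (m : ℕ) (c b : ℕ → ℕ), (∀ j, b j ≤ T * N) →
      ((1 + ε) * Real.log N ^ 2 ≤ size M c m →
        (((shifts m M q c b).filter fun s => (composite N s).Nonempty).card : ℝ) ≤
          (N : ℝ) ^ (-(ε / 2)) * (shifts m M q c b).card) ∧
      (size M c m ≤ (1 - ε) * Real.log N ^ 2 →
        (((shifts m M q c b).filter fun s => ¬ ((N : ℝ) ^ (1 - size M c m / Real.log N ^ 2 - ε) ≤ (composite N s).card ∧
          ((composite N s).card : ℝ) ≤ (N : ℝ) ^ (1 - size M c m / Real.log N ^ 2 + ε))).card : ℝ) ≤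
            ε * (shifts m M q c b).card) ∧
      ((1 + ε) * Real.log N ^ 2 ≤ size M c m →
        (((shifts m M q c b).filter fun s => ε * Real.log N ^ 2 < |size M c (longest N s) - Real.log N ^ 2|).card : ℝ) ≤
          ε * (shifts m M q c b).card) ∧
      ((∀ j < m, c j = j) → (1 + ε) * Real.log N ^ 2 ≤ m →
        (((shifts m M q c b).filter fun s => ε * Real.log N ^ 2 < |(longest N s : ℝ) - Real.log N ^ 2|).card : ℝ) ≤
          ε * (shifts m M q c b).card) := by
  obtain ⟨w₁, h₁⟩ := Pool.Agent.Run7.h931.RL.two_r ε hε
  obtain ⟨w₂, h₂⟩ := Pool.Agent.Run7.h931.RL.law_r ε hε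
  obtain ⟨w₃, h₃⟩ := Pool.Agent.Run7.h931.RL.law_i ε hε
  refine ⟨max w₁ (max w₂ w₃), fun T a w hw M hM1 hM => ?_⟩
  have hw1 : w₁ ≤ w := (le_max_left _ _).trans hw
  have hw2 : w₂ ≤ w := ((le_max_left _ _).trans (le_max_right _ _)).trans hw
  have hw3 : w₃ ≤ w := ((le_max_right _ _).trans (le_max_right _ _)).trans hw
  obtain ⟨n0, h⟩ := Filter.eventually_atTop.1 ((Pool.Agent.Run7.h931.RL.one_r T a w M hM1 hM ε hε).and
    ((h₁ T a w hw1 M hM1 hM).and ((h₂ T a w hw2 M hM1 hM).and (h₃ T a w hw3 M hM1 hM))))
  have hφ : (0 : ℝ) < Nat.totient M := by exact_mod_cast Nat.totient_pos.2 hM1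
  have hP : (M : ℝ) / Nat.totient M = Pool.Agent.Run7.h931.RS.Pw w := by
    rw [← Pool.Agent.Run7.h931.RL.tot_P w M hM1 hM]
    field_simp
  refine ⟨n0, fun N hN q hq hqN m c b hb => ?_⟩
  obtain ⟨g1, g2, g3, g4⟩ := h N hN
  have hsize : ∀ k, size M c k = Pool.Agent.Run7.h931.RS.Pw w * Pool.Agent.Run7.h931.RL.sur M c k := fun k => by
    unfold size
    rw [hP]
    rfl
  have hcard : ((shifts m M q c b).card : ℝ) = ∏ j : Fin m, ((Pool.Agent.Run7.h931.RL.cls M (c j) (b j) q).card : ℝ) := by
    unfold shifts
    rw [Fintype.card_piFinset]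
    push_cast
    rfl
  have k1 := g1 q hq hqN m (fun j => c j) (fun j => b j) (fun j => hb j)
  have k2 := g2 q hq hqN m (fun j => c j) (fun j => b j) (fun j => hb j)
  rw [Pool.Agent.Run7.h931.RL.rest_eq] at k1 k2
  simp only [hsize, hcard]
  exact ⟨k1, k2, g3 q hq hqN m c b hb, g4 q hq hqN m c b hb⟩

end Pool.Agent.Results.MP_f9960f_nt.SmallPrimesDecide
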