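import Pool.Agent.Run7.h294.G17

set_option autoImplicit false

/-!
# The tail of the distribution of the gaps between consecutive primes

Let `p 0 = 2 < p 1 = 3 < …` be the primes. There are `c, C > 0` such that for all large `X` and ALL real `μ` with
`0 ≤ μ ≤ c log log X` at least `X exp (-(e ^ μ log log X) ^ C)` of the primes `p n ≤ X` are followed by a gap
`p (n + 1) - p n ≥ μ log X`. In particular the number is at least `X exp (-e ^ (C' μ))` for
`log log log X ≤ μ ≤ c log log X`, and at least `X exp (-(log X) ^ (1/2))` for `μ ≤ c' log log X`. (The random model
predicts `X e ^ (-μ) / log X`.)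

Method. The square weight `V²` of the record sieve of the starting library (`Pool.Agent.H256R2.SC`, helper256 and
team), which lives on the integers `n` for which a given window `n + A` is covered by multiples of large primes, is
truncated to assignments with at most `j` different shifts. For these truncated weights the mean, the mean on the
uncovered part, the correlation of two disjoint windows (almost independent) and a crude fourth moment are computed
uniformly, for windows as short as `(ω, ω + μ log X]`. Averaging over the `exp (C (log log X)^2 2^m)` windows of one
block, `m` about `μ`, the variance tends to `0`; so almost all blocks have a free window. A positive proportion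
of the blocks contain a prime (second moment of the primes in short intervals,
`Pool.Agent.H357R2.SI`), and every such block contributes a gap.
-/

namespace Pool.Agent.Results.MP_f9960f_nt.UniformGapTail

/-- The prime with index `n` (`p 0 = 2`). -/
noncomputable def p (n : ℕ) : ℕ := Nat.nth Nat.Prime n

/-- **The tail of the prime gaps, uniformly up to `c log X log log X`.** -/
theorem result : ∃ c C : ℝ, 0 < c ∧ 0 < C ∧ ∃ X₀ : ℝ, ∀ X : ℝ, X₀ ≤ X →
    ∀ μ : ℝ, 0 ≤ μ → μ ≤ c * Real.log (Real.log X) →
      X * Real.exp (-((Real.exp μ * Real.log (Real.log X)) ^ C)) ≤
        ({n : ℕ | (p n : ℝ) ≤ X ∧ μ * Real.log X ≤ (p (n + 1) : ℝ) - p n}.ncard : ℝ) :=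
  Run7.h294.G.uniform_tail

end Pool.Agent.Results.MP_f9960f_nt.UniformGapTail
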